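import Pool.Agent.T9h4.NT.Gate

/-!
Components of projective varieties given by nested sums of high powers: the bounds for the exponents
do not depend on the dimension and the number of levels.
-/

set_option autoImplicit false

open IntermediateField hiding val
open FF MvPolynomial Pool.Agent.W603.LV Pool.Agent.W603.PV Pool.Agent.W603.GR Pool.Agent.W602.GT
  Pool.Agent.W603.GW Pool.Agent.W603.GX Pool.Agent.W603.GY Pool.Agent.T9h4.TW
open Pool.Agent.TH710.ND (GateL Env aeval_sum_pow IsLin IsMono env_of_inV aeval_lin gate_hom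
  aeval_mono torus_mono)

namespace Pool.Agent.T9h4.NT

/-- The regular pluricanonical forms of weight `N` on a resolution of the variety of dimension `w`
with function field `K` define a rational map whose image has dimension at least `h`; for `h = 0` this
says that there is such a form which is not `0`. -/
def PlurGe (k K : Type) [Field k] [Field K] [Algebra k K] (w N h : ℕ) : Prop :=
  ∃ ω : Fin (h + 1) → (Fin w → Derivation k K K) → K,
    (∀ j, LogSec k K w N (fun _ => False) (ω j)) ∧
    ∃ D, ω 0 D ≠ 0 ∧ AlgebraicIndependent k (fun i : Fin h => ω i.succ D / ω 0 D)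

section

variable {k K : Type} [Field k] [Field K] [Algebra k K] {w W : ℕ}

theorem forms_of {Bd : Place k K → Prop} {d : ℕ}
    (h : FormsW Bd (⊥ : IntermediateField k K) d W) (htr : Algebra.trdeg k K = w) :
    ∃ (t : Fin w → K) (g : K), IsTranscendenceBasis k t ∧ g ≠ 0 ∧
      Good Bd ⊥ t W g ∧ ∀ i, Good Bd ⊥ t W (g * t i ^ d) := by
  obtain ⟨ι, i1, i2, t, g, hg, ht, h1, h2⟩ := h
  have halg : AlgebraicIndependent k t :=
    ht.1.restrictScalars (algebraMap k (⊥ : IntermediateField k K)).injective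
  have hb0 : Algebra.trdeg k (⊥ : IntermediateField k K) = 0 := by
    rw [trdeg_eq_zero_iff]
    constructor
    intro x
    obtain ⟨c, hc⟩ := IntermediateField.mem_bot.1 x.2
    have h3 : x = algebraMap k (⊥ : IntermediateField k K) c := Subtype.ext hc.symm
    rw [h3]
    exact isAlgebraic_algebraMap c
  have h3 := trdeg_add_eq k (⊥ : IntermediateField k K) (A := K)
  rw [hb0, zero_add, htr] at h3
  have h4 := ht.cardinalMk_eq_trdeg
  rw [h3] at h4
  have h5 : Nonempty (Fin w ≃ ι) := by
    rw [← Cardinal.eq, Cardinal.mk_fin]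
    exact h4.symm
  obtain ⟨e⟩ := h5
  have h6 : IsTranscendenceBasis k t :=
    halg.isTranscendenceBasis_of_trdeg_le_of_finite (by rw [htr, h4])
  exact ⟨t ∘ e, g, h6.comp_equiv e, hg, h1.reindex e, fun i => (h2 (e i)).reindex e⟩

variable [CharZero k]

theorem plur_zero (htr : Algebra.trdeg k K = w)
    (h : FormsW (fun _ : Place k K => False) (⊥ : IntermediateField k K) 0 W) :
    PlurGe k K w W 0 := by
  obtain ⟨t, g', ht, hg', h1, -⟩ := forms_of h htr
  obtain ⟨D, hD⟩ := exists_dual ht
  have hf : form t W g' D = g' := by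
    unfold form
    rw [hD, Matrix.det_one, one_pow, mul_one]
  refine ⟨fun _ => form t W g', fun _ => logSec_of_good h1, D, ?_, ?_⟩
  · change form t W g' D ≠ 0
    rw [hf]
    exact hg'
  · rw [algebraicIndependent_empty_type_iff]
    exact (algebraMap k K).injective

theorem plur_top (htr : Algebra.trdeg k K = w)
    (h : FormsW (fun _ : Place k K => False) (⊥ : IntermediateField k K) 1 W) :
    PlurGe k K w W w := by
  obtain ⟨t, g', ht, hg', h1, h2⟩ := forms_of h htr
  obtain ⟨D, hD⟩ := exists_dual ht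
  have hf : ∀ g, form t W g D = g := fun g => by
    unfold form
    rw [hD, Matrix.det_one, one_pow, mul_one]
  let ω : Fin (w + 1) → (Fin w → Derivation k K K) → K :=
    Fin.cases (form t W g') fun i => form t W (g' * t i ^ 1)
  have hω : ∀ j, LogSec k K w W (fun _ => False) (ω j) := by
    intro j
    refine Fin.cases ?_ (fun i => ?_) j
    · exact logSec_of_good h1
    · exact logSec_of_good (h2 i)
  refine ⟨ω, hω, D, ?_, ?_⟩
  · change form t W g' D ≠ 0
    rw [hf]
    exact hg'
  · have h4 : (fun i : Fin w => ω i.succ D / ω 0 D) = t := by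
      funext i
      change form t W (g' * t i ^ 1) D / form t W g' D = t i
      rw [hf, hf, pow_one]
      field_simp
    rw [h4]
    exact ht.1

end

variable {k : Type} [Field k] {n : ℕ} {ι : Type}

/-- The forms `F e` are nested sums of high powers of linear forms, or all of them are nested sums
of high powers of monomials. -/
def Towers (d S : ℕ) (F : ι → MvPolynomial (Fin (n + 1)) k) : Prop :=
  (∀ e, Nested IsLin d S (F e)) ∨ (∀ e, IsForm (F e) ∧ Nested IsMono d S (F e))

variable [CharZero k] [IsAlgClosed k]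

omit [IsAlgClosed k] in
/-- **Tori.** -/
theorem sparse {F : ι → MvPolynomial (Fin (n + 1)) k} {K : Type} [Field K] [Algebra k K]
    {y : Fin (n + 1) → K} (halg : Algebra.IsAlgebraic (coords k y) K) {D : Derivation k K K}
    (hD0 : D ≠ 0) (hD : ∀ (M : Type) [CommRing M] [Algebra k M] [Algebra K M]
      [IsScalarTower k K M] (x : Fin (n + 1) → M),
        Env (consts D) IsMono y x → ∀ i, aeval x (F i) = 0) :
    ∃ (b : Fin (n + 1) → ℤ) (i i' : Fin (n + 1)), y i ≠ 0 ∧ y i' ≠ 0 ∧ b i ≠ b i' ∧
      ∀ e v, val y (wc b v (F e)) = 0 := by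
  have hK : CharZero K := charZero_of_injective_algebraMap (algebraMap k K).injective
  have hinf : Infinite K := inferInstance
  obtain ⟨i, i', hii⟩ := moves halg hD0
  have hyi : y i ≠ 0 := by
    intro h0
    apply hii
    rw [h0, map_zero]
    ring
  have hyi' : y i' ≠ 0 := by
    intro h0
    apply hii
    rw [h0, map_zero]
    ring
  have hlam : D (y i) / y i ≠ D (y i') / y i' := by
    intro h0
    apply hii
    field_simp at h0
    linear_combination -h0
  obtain ⟨b, hb, hb2⟩ := int_weights (fun j => D (y j) / y j) hlam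
  refine ⟨b, i, i', hyi, hyi', hb, fun e v => ?_⟩
  obtain ⟨M, R, hR1, -, hR3⟩ := orbit_poly (k := k) y b (F e)
  refine hR3 (poly_zero fun t ht => ?_) v
  rw [hR1 t ht]
  have h1 : val (fun j => t ^ b j * y j) (F e) = 0 := by
    refine hD K _ ⟨?_, ?_⟩ e
    · rintro p ⟨α, a, rfl⟩ h
      rw [aeval_mono] at h ⊢
      rw [torus_mono y b ht, mul_left_comm, h, mul_zero]
    · rintro p q ⟨α, a, rfl⟩ ⟨β, c, rfl⟩ hp hq hW
      rw [aeval_mono] at hp hq
      rw [aeval_mono, aeval_mono] at hW
      have h2 : D (algebraMap k K a * ∏ j, y j ^ α j) * (algebraMap k K c * ∏ j, y j ^ β j) =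
          (algebraMap k K a * ∏ j, y j ^ α j) * D (algebraMap k K c * ∏ j, y j ^ β j) := by
        have h1 : D ((algebraMap k K a * ∏ j, y j ^ α j) /
          (algebraMap k K c * ∏ j, y j ^ β j)) = 0 := hW
        rw [D.leibniz_div] at h1
        rw [smul_eq_zero, or_iff_right (pow_ne_zero 2 (inv_ne_zero hq))] at h1
        simp only [smul_eq_mul] at h1
        linear_combination h1
      rw [der_mon D hp, der_mon D hq] at h2
      have h4 : ∑ j, (α j : K) * (D (y j) / y j) = ∑ j, (β j : K) * (D (y j) / y j) := by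
        apply mul_left_cancel₀ (mul_ne_zero hp hq)
        linear_combination h2
      have h5 := hb2 (fun j => (α j : ℤ) - (β j : ℤ)) (by
        push_cast
        simp only [sub_mul, Finset.sum_sub_distrib]
        rw [h4, sub_self])
      simp only [sub_mul, Finset.sum_sub_distrib] at h5
      rw [aeval_mono, aeval_mono, aeval_mono, aeval_mono, torus_mono y b ht, torus_mono y b ht,
        sub_eq_zero.1 h5]
      change algebraMap k K a * (t ^ (∑ j, (β j : ℤ) * b j) * ∏ j, y j ^ α j) *
        (algebraMap k K c * ∏ j, y j ^ β j) = algebraMap k K a * (∏ j, y j ^ α j) *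
        (algebraMap k K c * (t ^ (∑ j, (β j : ℤ) * b j) * ∏ j, y j ^ β j))
      ring
  rw [h1, mul_zero]

/-- Components without the forms are ruled. -/
theorem ruled_of {d S N : ℕ} {F : ι → MvPolynomial (Fin (n + 1)) k} (hF : Towers d S F)
    {K : Type} [Field K] [Algebra k K] {w : ℕ} {y : Fin (n + 1) → K}
    (hy : SubVar F K w y) (hcomp : IsComponent F y) (hN : 0 < N)
    (hS : ∀ m, 2 ≤ m → m + 1 ≤ S → bw m (tn m) d ∣ N)
    (hgt : ¬ FormsW (fun _ : Place k K => False) (⊥ : IntermediateField k K) d N) :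
    ∃ (C : IntermediateField k K) (σ : K), Transcendental C σ ∧ C⟮σ⟯ = ⊤ := by
  have halg : Algebra.IsAlgebraic (coords k y) K := by
    rw [hy.gen]
    infer_instance
  rcases hF with h | h
  · obtain ⟨D, hD0, hD⟩ := der_of_not h hy.dim hy.mem hN hS hgt
    obtain ⟨i0, hi0'⟩ := Function.ne_iff.1 hy.ne
    have hi0 : y i0 ≠ 0 := hi0'
    have hyQ : SubVarQ F (Empty.elim : Empty → MvPolynomial (Fin (n + 1)) k) K w y :=
      ⟨hy.ne, hy.mem, fun j => j.elim, hy.gen, hy.dim⟩
    have hcompQ : IsComponentQ F (Empty.elim : Empty → MvPolynomial (Fin (n + 1)) k) y := by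
      obtain ⟨H, h1, h2, h3⟩ := hcomp
      exact ⟨H, h1, h2, fun x hx => h3 x ⟨hx.1, hx.2.1⟩⟩
    have hG' : Pool.Agent.W603.GX.Good F (Empty.elim : Empty → MvPolynomial (Fin (n + 1)) k) y
        (PrD D y) Empty.elim :=
      ⟨fun p hp => ⟨hp.1, hp.2.1⟩, fun M _ _ _ _ x hx i => hD M x (env_of_inV (W := consts D) hx) i,
        fun j => j.elim, fun M _ _ _ _ x hx j => j.elim⟩
    obtain ⟨C, c, τ, z, e, hfd, h1, h2, h3, h4⟩ := flow_of_der (fun j => j.elim) hyQ hcompQ hD0 hG'
      (ls := Pi.single i0 1) (by rw [lin_single]; exact hi0)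
    exact ⟨C, τ, hfd.trans, hfd.top⟩
  · obtain ⟨D, hD0, hD⟩ := der_of_not (fun e => (h e).2) hy.dim hy.mem hN hS hgt
    obtain ⟨b, i, i', hi, hi', hb, hwc⟩ := sparse halg hD0 hD
    have hyU : SubVarU ∅ F K w y :=
      ⟨hy.ne, fun j hj => absurd hj (Set.notMem_empty j), hy.mem, hy.gen, hy.dim⟩
    have hcompU : IsComponentU ∅ F y := by
      obtain ⟨H, hH, hHy, hcone⟩ := hcomp
      exact ⟨H, hH, hHy, fun x hx hxH => hcone x (mem_cone_empty hx) hxH⟩
    obtain ⟨δ, σ, -, -, hσ0, hσ, htop, -⟩ := exists_delta hy.gen b hi hi' hb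
      (fun G hG h0 v => ideal_hom hyU hcompU hwc G hG h0 v)
    refine ⟨consts δ, σ, ?_, htop⟩
    intro halg
    have h1 : Algebra.IsAlgebraic (consts δ) K := by
      have h2 : Algebra.IsAlgebraic (consts δ) (consts δ)⟮σ⟯ :=
        IntermediateField.isAlgebraic_adjoin_simple halg.isIntegral
      constructor
      intro z
      have h3 := h2.isAlgebraic (⟨z, by rw [htop]; exact IntermediateField.mem_top⟩ : (consts δ)⟮σ⟯)
      exact h3.algebraMap (A := K)
    have h2 : Algebra.IsAlgebraic (IntermediateField.adjoin k (consts δ : Set K)) K := by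
      rw [IntermediateField.adjoin_self]
      exact h1
    have h3 := der_eq_zero δ _ h2 (fun s hs => hs)
    rw [h3] at hσ
    exact hσ0 hσ.symm

theorem bw_dvd {m S d : ℕ} (hm : 2 ≤ m) (hmS : m + 1 ≤ S) (hd : d ≤ 1) :
    bw m (tn m) d ∣ (S ^ 5).factorial := by
  have h0 := tn_pos hm
  have h1 : tn m ≤ m * m := by
    have h2 := TW.tn_eq (m + 1)
    rw [Nat.add_sub_cancel] at h2
    rw [h2]
    refine (Nat.div_le_self _ _).trans (Nat.mul_le_mul le_rfl ?_)
    omega
  refine Nat.dvd_factorial ?_ ?_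
  · unfold bw
    have : 0 < tn m * (m + 1) := Nat.mul_pos h0 (Nat.succ_pos m)
    exact Nat.mul_pos (by omega) h0
  · unfold bw
    calc (tn m * (m + 1) + d) * tn m ≤ (m * m * (m + 1) + 1) * (m * m) :=
          Nat.mul_le_mul (Nat.add_le_add (Nat.mul_le_mul_right _ h1) hd) h1
      _ ≤ (m + 1) ^ 3 * (m + 1) ^ 2 := by
          refine Nat.mul_le_mul ?_ ?_
          · nlinarith
          · nlinarith
      _ = (m + 1) ^ 5 := by ring
      _ ≤ S ^ 5 := Nat.pow_le_pow_left hmS 5

/-- **The dichotomy.** -/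
theorem dichotomy {F : ι → MvPolynomial (Fin (n + 1)) k} {S : ℕ} (hF : Towers 0 S F)
    {K : Type} [Field K] [Algebra k K] {w : ℕ} {y : Fin (n + 1) → K}
    (hy : SubVar F K w y) (hcomp : IsComponent F y) :
    (¬ Psef k K w (fun _ => False) ∧ Ruled k K) ∨
    (Psef k K w (fun _ => False) ∧ PlurGe k K w (S ^ 5).factorial 0 ∧
      (Towers 1 S F → PlurGe k K w (S ^ 5).factorial w)) := by
  have hW : 0 < (S ^ 5).factorial := Nat.factorial_pos _
  by_cases hk : PlurGe k K w (S ^ 5).factorial 0
  · have hp : Psef k K w (fun _ => False) := psef_of_kodGe ⟨_, hW, hk⟩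
    refine Or.inr ⟨hp, hk, fun hs => ?_⟩
    by_contra hgt
    obtain ⟨C, σ, h1, h2⟩ := ruled_of hs hy hcomp hW (fun m hm hmS => bw_dvd hm hmS le_rfl)
      (fun h => hgt (plur_top hy.dim h))
    exact not_psef_of hy.dim C h1 h2 hp
  · obtain ⟨C, σ, h1, h2⟩ := ruled_of hF hy hcomp hW
      (fun m hm hmS => bw_dvd hm hmS (Nat.zero_le _)) fun h => hk (plur_zero hy.dim h)
    exact Or.inl ⟨not_psef_of hy.dim C h1 h2, C, σ, h1, h2⟩

end Pool.Agent.T9h4.NT
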