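import Pool.Agent.T9h4.NT.Tower
import Pool.Agent.TH710.ND.Proj

/-!
Relations between nested sums of high powers over the last field of the tower.
-/

set_option autoImplicit false

open IntermediateField hiding val
open FF MvPolynomial Pool.Agent.W603.LV Pool.Agent.W603.GR Pool.Agent.W602.GT Pool.Agent.W603.GW
  Pool.Agent.W603.GX Pool.Agent.W603.GY Pool.Agent.T9h4.TW
open Pool.Agent.TH710.ND (GateL Env aeval_sum_pow class_zero sum_sub IsLin IsMono IsNested
  NestedIn env_of_inV ord_alg mul_pow_ne pow_rel)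

namespace Pool.Agent.T9h4.NT

variable {k K : Type} [Field k] [Field K] [Algebra k K] {σ : Type}

/-- the exponents are large compared with the numbers of summands, at each level -/
def Tall (d S : ℕ) (L : List (ℕ × ℕ)) : Prop :=
  ∀ ke ∈ L, 2 * ke.1 ≤ S ∧ 2 * ke.1 * tn (2 * ke.1 - 1) + d ≤ ke.2 ∧ 0 < ke.2

variable {Bd : Place k K → Prop} {d S : ℕ} {W : IntermediateField k K}
  {Lf : MvPolynomial σ k → Prop} {y : σ → K}

section

variable {M : Type} [CommRing M] [Algebra k M] [Algebra K M] [IsScalarTower k K M] {x : σ → M}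

omit [IsScalarTower k K M] in
/-- power terms -/
theorem pow_terms (hcl : ∀ x : K, IsAlgebraic W x → x ∈ W) (hW : Term Bd d S W) {s e : ℕ}
    (hs : s ≤ S) (he : s * tn (s - 1) + d ≤ e) (he0 : 0 < e)
    {J : Type} [Fintype J] (κ : J → K) (hκ : ∀ j, κ j ∈ W) (g : J → MvPolynomial σ k)
    (hsum : ∑ j, κ j * aeval y (g j) ^ e = 0) (hcard : Fintype.card J ≤ s)
    (h0 : ∀ j, aeval y (g j) = 0 → aeval x (g j) = 0)
    (hrel : ∀ i j, aeval y (g i) ≠ 0 → aeval y (g j) ≠ 0 → aeval y (g i) / aeval y (g j) ∈ W →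
        aeval x (g i) * algebraMap K M (aeval y (g j)) =
          algebraMap K M (aeval y (g i)) * aeval x (g j)) :
    ∑ j, algebraMap K M (κ j) * aeval x (g j) ^ e = 0 := by
  classical
  let T : J → K := fun j => κ j * aeval y (g j) ^ e
  have hz : ∀ j, T j = 0 → algebraMap K M (κ j) * aeval x (g j) ^ e = 0 := by
    intro j hj
    change κ j * aeval y (g j) ^ e = 0 at hj
    rcases mul_eq_zero.1 hj with h | h
    · rw [h, map_zero, zero_mul]
    · rw [h0 j (pow_eq_zero_iff he0.ne' |>.1 h), zero_pow he0.ne', mul_zero]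
  obtain ⟨R, hR, hRW, hRs⟩ := classes hW hs he (fun a : {j // T j ≠ 0} => T a.1)
    { ne := fun a => a.2
      sum := (sum_sub T T fun _ h => h).trans hsum
      card := (Fintype.card_subtype_le _).trans hcard
      jump := by
        rintro P - hP ⟨i, hi⟩ ⟨j, hj⟩
        obtain ⟨h1, h2⟩ := mul_pow_ne he0 hi
        obtain ⟨h3, h4⟩ := mul_pow_ne he0 hj
        change P.ord (κ i * aeval y (g i) ^ e) = P.ord (κ j * aeval y (g j) ^ e) ∨
          (e : ℤ) ≤ |P.ord (κ i * aeval y (g i) ^ e) - P.ord (κ j * aeval y (g j) ^ e)|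
        rw [P.ord_mul h1 (pow_ne_zero _ h2), P.ord_mul h3 (pow_ne_zero _ h4), hP _ (hκ i) h1,
          hP _ (hκ j) h3, zero_add, zero_add, P.ord_pow, P.ord_pow]
        by_cases h : P.ord (aeval y (g i)) = P.ord (aeval y (g j))
        · left; rw [h]
        · right
          rw [← mul_sub, abs_mul, Nat.abs_cast]
          have h1 : (1 : ℤ) ≤ |P.ord (aeval y (g i)) - P.ord (aeval y (g j))| :=
            Int.one_le_abs (sub_ne_zero.2 h)
          have h4 : (0 : ℤ) ≤ e := by positivity
          nlinarith }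
  rw [← sum_sub T (fun j => algebraMap K M (κ j) * aeval x (g j) ^ e) hz]
  refine class_zero R hR (fun a : {j // T j ≠ 0} => T a.1) (fun a => a.2)
    (fun a => algebraMap K M (κ a.1) * aeval x (g a.1) ^ e) ?_ hRs
  rintro ⟨i, hi⟩ ⟨j, hj⟩ hij
  obtain ⟨h1, h2⟩ := mul_pow_ne he0 hi
  obtain ⟨h3, h4⟩ := mul_pow_ne he0 hj
  refine pow_rel (hrel i j h2 h4 ?_)
  have h5 : κ i * aeval y (g i) ^ e / (κ j * aeval y (g j) ^ e) ∈ W := hRW _ _ hij
  apply hcl
  have h6 : (aeval y (g i) / aeval y (g j)) ^ e ∈ W := by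
    have h7 : (aeval y (g i) / aeval y (g j)) ^ e =
        (κ i * aeval y (g i) ^ e / (κ j * aeval y (g j) ^ e)) * κ j * (κ i)⁻¹ := by
      rw [div_pow]
      field_simp
    rw [h7]
    exact mul_mem (mul_mem h5 (hκ j)) (inv_mem (hκ i))
  have h8 : IsAlgebraic W ((aeval y (g i) / aeval y (g j)) ^ e) :=
    isAlgebraic_algebraMap (⟨_, h6⟩ : W)
  exact h8.of_pow he0

/-- **Gates.** -/
theorem gate_rel (hcl : ∀ x : K, IsAlgebraic W x → x ∈ W) (hW : Term Bd d S W)
    (hE : Env W Lf y x) (L : List (ℕ × ℕ)) : Tall d S L →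
    (∀ p, GateL Lf L p → aeval y p = 0 → aeval x p = 0) ∧
      ∀ p q, GateL Lf L p → GateL Lf L q → aeval y p ≠ 0 → aeval y q ≠ 0 →
        aeval y p / aeval y q ∈ W →
        aeval x p * algebraMap K M (aeval y q) = algebraMap K M (aeval y p) * aeval x q := by
  induction L with
  | nil =>
    intro _
    exact ⟨fun p hp => hE.z p hp, fun p q hp hq h1 h2 h3 => hE.p p q hp hq h1 h2 h3⟩
  | cons ke L ih =>
    intro hL
    obtain ⟨hkS, hN, he0⟩ := hL ke List.mem_cons_self
    obtain ⟨ihz, ihp⟩ := ih fun x hx => hL x (List.mem_cons_of_mem _ hx)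
    constructor
    · rintro p ⟨a, g, hg, rfl⟩ h
      rw [aeval_sum_pow] at h ⊢
      have h1 := pow_terms (x := x) hcl hW hkS hN he0 (fun i => algebraMap k K (a i))
        (fun i => W.algebraMap_mem _) g h
        (by rw [Fintype.card_fin]; omega) (fun j hj => ihz (g j) (hg j) hj)
        (fun i j hi hj hl => ihp (g i) (g j) (hg i) (hg j) hi hj hl)
      simp only [← IsScalarTower.algebraMap_apply] at h1
      exact h1
    · rintro p q hp hq hp0 hq0 hl
      obtain ⟨a, g, hg, hpe⟩ := hp
      obtain ⟨b, g', hg', hqe⟩ := hq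
      set lam : K := aeval y p / aeval y q with hlam
      let G : Fin ke.1 ⊕ Fin ke.1 → MvPolynomial σ k := Sum.elim g g'
      have hG : ∀ i, GateL Lf L (G i) := by
        rintro (i | i)
        · exact hg i
        · exact hg' i
      let κ : Fin ke.1 ⊕ Fin ke.1 → K :=
        Sum.elim (fun i => algebraMap k K (a i)) (fun i => -lam * algebraMap k K (b i))
      have hval : ∑ i, κ i * aeval y (G i) ^ ke.2 = aeval y p - lam * aeval y q := by
        rw [hpe, hqe, aeval_sum_pow, aeval_sum_pow, Fintype.sum_sum_type, Finset.mul_sum,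
          sub_eq_add_neg, ← Finset.sum_neg_distrib]
        congr 1
        exact Finset.sum_congr rfl fun i _ => by
          simp only [κ, G, Sum.elim_inr]; ring
      have hval' : ∑ i, algebraMap K M (κ i) * aeval x (G i) ^ ke.2 =
          aeval x p - algebraMap K M lam * aeval x q := by
        rw [hpe, hqe, aeval_sum_pow, aeval_sum_pow, Fintype.sum_sum_type, Finset.mul_sum,
          sub_eq_add_neg, ← Finset.sum_neg_distrib]
        congr 1
        · exact Finset.sum_congr rfl fun i _ => by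
            simp only [κ, G, Sum.elim_inl]
            rw [← IsScalarTower.algebraMap_apply]
        · exact Finset.sum_congr rfl fun i _ => by
            simp only [κ, G, Sum.elim_inr]
            rw [map_mul, map_neg, ← IsScalarTower.algebraMap_apply]
            ring
      have h1 := pow_terms (x := x) hcl hW hkS hN he0 κ
        (by
          rintro (i | i)
          · exact W.algebraMap_mem _
          · exact mul_mem (neg_mem hl) (W.algebraMap_mem _))
        G (by rw [hval, hlam, div_mul_cancel₀ _ hq0, sub_self])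
        (by rw [Fintype.card_sum, Fintype.card_fin]; omega)
        (fun j hj => ihz (G j) (hG j) hj)
        (fun i j hi hj hl' => ihp (G i) (G j) (hG i) (hG j) hi hj hl')
      rw [hval', sub_eq_zero, hlam] at h1
      rw [h1, mul_right_comm, ← map_mul, div_mul_cancel₀ _ hq0]

end

/-- `F` is a nested sum of powers of the leaves `Lf`: a sum of `r` terms `c g ^ e`, where the `g`
are leaves or sums of such terms of the next level, and so on. For all levels but the first the
exponent is at least `r (2 r - 1) (2 r - 2) + d`, where `r` is the number of summands at this level;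
for the first one it is at least `r (r - 1) (r - 2) / 2 + d`. -/
def Nested (Lf : MvPolynomial σ k → Prop) (d S : ℕ) (F : MvPolynomial σ k) : Prop :=
  ∃ (r e : ℕ) (L : List (ℕ × ℕ)) (c : Fin r → k) (g : Fin r → MvPolynomial σ k),
    r ≤ S ∧ r * tn (r - 1) + d ≤ e ∧ 0 < e ∧ Tall d S L ∧ (∀ i, GateL Lf L (g i)) ∧
      F = ∑ i, C (c i) * g i ^ e

/-- the forms vanish at the specialisations -/
theorem vanish {M : Type} [CommRing M] [Algebra k M] [Algebra K M] [IsScalarTower k K M]
    {x : σ → M} (hcl : ∀ x : K, IsAlgebraic W x → x ∈ W) (hW : Term Bd d S W)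
    (hE : Env W Lf y x) {F : MvPolynomial σ k} (hF : Nested Lf d S F) (h : aeval y F = 0) :
    aeval x F = 0 := by
  obtain ⟨r, e, L, c, g, hr, he, he0, hL, hg, rfl⟩ := hF
  obtain ⟨ihz, ihp⟩ := gate_rel hcl hW hE L hL
  rw [aeval_sum_pow] at h ⊢
  have h1 := pow_terms (x := x) hcl hW hr he he0 (fun i => algebraMap k K (c i))
    (fun i => W.algebraMap_mem _) g h
    (by rw [Fintype.card_fin]) (fun j hj => ihz (g j) (hg j) hj)
    (fun i j hi hj hl => ihp (g i) (g j) (hg i) (hg j) hi hj hl)
  simp only [← IsScalarTower.algebraMap_apply] at h1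
  exact h1

theorem Env.mono {W' : IntermediateField k K} {M : Type} [CommRing M] [Algebra k M]
    [Algebra K M] {x : σ → M} (hle : ∀ z ∈ W, z ∈ W')
    (h : Env W' Lf y x) : Env W Lf y x :=
  ⟨h.z, fun p q hp hq h1 h2 h3 => h.p p q hp hq h1 h2 (hle _ h3)⟩

/-- **The dichotomy.** -/
theorem der_of_not [IsAlgClosed k] [CharZero k] {ι : Type} {F : ι → MvPolynomial σ k}
    (hF : ∀ i, Nested Lf d S (F i)) {w : ℕ} (hdim : Algebra.trdeg k K = w)
    (hmem : ∀ i, aeval y (F i) = 0) {N : ℕ} (hN : 0 < N)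
    (hS : ∀ m, 2 ≤ m → m + 1 ≤ S → bw m (tn m) d ∣ N)
    (hgt : ¬ FormsW Bd (⊥ : IntermediateField k K) d N) :
    ∃ D : Derivation k K K, D ≠ 0 ∧
      ∀ (M : Type) [CommRing M] [Algebra k M] [Algebra K M] [IsScalarTower k K M] (x : σ → M),
        Env (consts D) Lf y x → ∀ i, aeval x (F i) = 0 := by
  have h3 := trdeg_add_eq k (⊥ : IntermediateField k K) (A := K)
  obtain ⟨r, hr⟩ : ∃ r : ℕ, Algebra.trdeg (⊥ : IntermediateField k K) K = r := by
    have h5 : Algebra.trdeg (⊥ : IntermediateField k K) K ≤ (w : Cardinal) := by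
      rw [← hdim, ← h3]
      exact self_le_add_left _ _
    exact Cardinal.lt_aleph0.1 (h5.trans_lt Cardinal.natCast_lt_aleph0)
  obtain ⟨W, hcl, halg, hW⟩ := (tower Bd d S hN hS r ⊥ base_closed hr).resolve_left hgt
  obtain ⟨D, hD0, hD⟩ := exists_der_over (k := k) (W : Set K) (by
    rw [IntermediateField.adjoin_self]
    exact halg)
  exact ⟨D, hD0, fun M _ _ _ _ x hE i => vanish hcl hW
    (Env.mono (fun z hz => hD z hz) hE) (hF i) (hmem i)⟩

end Pool.Agent.T9h4.NT
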