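import Pool.Agent.T9h4.NT.Final

/-!
Nested sums of high powers with bounds which depend only on the numbers of summands.
-/

set_option autoImplicit false

open FF MvPolynomial Pool.Agent.W603.LV Pool.Agent.W602.GT Pool.Agent.T9h4.TW
open Pool.Agent.TH710.ND (GateL IsLin IsMono)

namespace Pool.Agent.T9h4.NT

variable {k : Type} [Field k] {n : ℕ} {ι σ : Type}

/-- `F` is a nested sum of powers of the leaves `Lf`, with the levels `L`: at the level `(r, e)` it is
a sum of `r` terms `c g ^ e`, with constants `c`, where the `g` are such sums with the next levels of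
`L`, and leaves after the last one (`GateL`). At each level `(r, e)` there are at most `s` summands
and the exponent is at least `r (2 r - 1) (2 r - 2) + d`. -/
def HighNested (Lf : MvPolynomial σ k → Prop) (d s : ℕ) (F : MvPolynomial σ k) : Prop :=
  ∃ L : List (ℕ × ℕ), L ≠ [] ∧ GateL Lf L F ∧
    ∀ re ∈ L, re.1 ≤ s ∧ re.1 * ((2 * re.1 - 1) * (2 * re.1 - 2)) + d ≤ re.2 ∧ 0 < re.2

/-- The forms `F e` are nested sums of high powers of linear forms, or all of them are nested sums
of high powers of monomials. -/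
def HighSystem (d s : ℕ) (F : ι → MvPolynomial (Fin (n + 1)) k) : Prop :=
  (∀ e, HighNested IsLin d s (F e)) ∨ ∀ e, IsForm (F e) ∧ HighNested IsMono d s (F e)

theorem two_tn (r : ℕ) : 2 * r * tn (2 * r - 1) ≤ r * ((2 * r - 1) * (2 * r - 2)) := by
  rw [TW.tn_eq]
  calc 2 * r * ((2 * r - 1) * (2 * r - 2) / 2) = r * ((2 * r - 1) * (2 * r - 2) / 2 * 2) := by ring
    _ ≤ r * ((2 * r - 1) * (2 * r - 2)) := Nat.mul_le_mul_left _ (Nat.div_mul_le_self _ _)

theorem HighNested.nested {Lf : MvPolynomial σ k → Prop} {d s : ℕ} {F : MvPolynomial σ k}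
    (h : HighNested Lf d s F) : Nested Lf d (2 * s) F := by
  obtain ⟨L, hL0, hg, hL⟩ := h
  cases L with
  | nil => exact absurd rfl hL0
  | cons re L =>
    obtain ⟨c, g, hg, hF⟩ := hg
    obtain ⟨h1, h2, h3⟩ := hL re List.mem_cons_self
    refine ⟨re.1, re.2, L, c, g, by omega, ?_, h3, fun x hx => ?_, hg, hF⟩
    · refine le_trans (Nat.add_le_add_right ?_ d) h2
      exact (tn_le (by omega : re.1 ≤ 2 * re.1)).trans (two_tn re.1)
    · obtain ⟨h4, h5, h6⟩ := hL x (List.mem_cons_of_mem _ hx)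
      exact ⟨by omega, (Nat.add_le_add_right (two_tn x.1) d).trans h5, h6⟩

theorem HighSystem.towers {d s : ℕ} {F : ι → MvPolynomial (Fin (n + 1)) k}
    (h : HighSystem d s F) : Towers d (2 * s) F :=
  h.imp (fun h e => (h e).nested) fun h e => ⟨(h e).1, (h e).2.nested⟩

/-- **The dichotomy.** -/
theorem main [IsAlgClosed k] [CharZero k] {F : ι → MvPolynomial (Fin (n + 1)) k} {s : ℕ}
    (hF : HighSystem 0 s F) {K : Type} [Field K] [Algebra k K] {w : ℕ} {y : Fin (n + 1) → K}
    (hy : SubVar F K w y) (hcomp : IsComponent F y) :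
    (¬ Psef k K w (fun _ => False) ∧ Ruled k K) ∨
    (Psef k K w (fun _ => False) ∧ PlurGe k K w ((2 * s) ^ 5).factorial 0 ∧
      (HighSystem 1 s F → PlurGe k K w ((2 * s) ^ 5).factorial w)) := by
  rcases dichotomy hF.towers hy hcomp with h | ⟨h1, h2, h3⟩
  · exact Or.inl h
  · exact Or.inr ⟨h1, h2, fun h => h3 h.towers⟩

end Pool.Agent.T9h4.NT
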