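import Pool.Agent.T9h4.TW.Final

/-!
One step of the tower: relative pluricanonical forms, with an explicit weight, from one vanishing sum.
-/

set_option autoImplicit false

open FF Pool.Agent.W603.LV Pool.Agent.W602.GT Pool.Agent.T9h4.TW

namespace Pool.Agent.T9h4.NT

variable {k K : Type} [Field k] [Field K] [Algebra k K]

/-- the place is trivial on `L` -/
def Triv (L : IntermediateField k K) (P : Place k K) : Prop := ∀ x ∈ L, x ≠ 0 → P.ord x = 0

/-- A vanishing sum with at most `s` nonzero members whose orders at the places which are trivial on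
`L` are equal or differ by at least `N`. -/
structure VS (Bd : Place k K → Prop) (L : IntermediateField k K) (s N : ℕ) {J : Type} [Fintype J]
    (T : J → K) : Prop where
  ne : ∀ j, T j ≠ 0
  sum : ∑ j, T j = 0
  card : Fintype.card J ≤ s
  jump : ∀ P : Place k K, ¬ Bd P → Triv L P → ∀ i j, P.ord (T i) = P.ord (T j) ∨
    (N : ℤ) ≤ |P.ord (T i) - P.ord (T j)|

/-- one step of the tower -/
theorem step [IsAlgClosed k] [CharZero k] {Bd : Place k K → Prop} {L : IntermediateField k K}
    {s N : ℕ} {J : Type} [Fintype J] {T0 : J → K} (hT0 : VS Bd L s N T0) (d : ℕ)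
    (hN : s * tn (s - 1) + d ≤ N) (hL : ∀ x : K, IsAlgebraic L x → x ∈ L)
    (C : CD L T0) (a0 b0 : Fin (C.m + 1))
    (hab : (C.c a0 • T0 (C.e a0)) / (C.c b0 • T0 (C.e b0)) ∉ L) :
    ∃ (M : IntermediateField L K) (w m : ℕ) (t : Fin w → M) (g' : K), 0 < w ∧ 2 ≤ m ∧ m + 1 ≤ s ∧
      g' ≠ 0 ∧ IsTranscendenceBasis L t ∧ Good Bd L (fun i => (t i : K)) (bw m (tn m) d) g' ∧
      (∀ i, Good Bd L (fun i => (t i : K)) (bw m (tn m) d) (g' * (t i : K) ^ d)) ∧
      (∀ x : K, IsAlgebraic M x → x ∈ M) ∧
      (∀ D : Derivation k K K, (∀ x ∈ L, D x = 0) → (∀ i, D (t i : K) = 0) →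
        ∀ x ∈ M, D x = 0) := by
  classical
  have hcharL : CharZero L := charZero_of_injective_algebraMap (algebraMap k L).injective
  obtain ⟨m, em, hem, c0, hc0, hrel, hlinC⟩ := C
  dsimp only at a0 b0 hab
  let T : Fin (m + 1) → K := fun l => c0 l • T0 (em l)
  have hT : ∀ l, T l ≠ 0 := fun l => smul_ne_zero (hc0 l) (hT0.ne _)
  have hTsum : ∑ l, T l = 0 := hrel
  let r : Fin (m + 1) → K := fun l => T l / T (Fin.last m)
  have hr0 : ∀ l, r l ≠ 0 := fun l => div_ne_zero (hT l) (hT _)
  have hrab : r a0 / r b0 = T a0 / T b0 := by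
    have h1 := hT (Fin.last m)
    have h2 := hT b0
    simp only [r]
    field_simp
  have hm2 : 2 ≤ m := by
    by_contra hcon
    obtain ⟨c, hc⟩ := ratio_const (k := L) (by omega : m ≤ 1) T hT hTsum a0 b0
    apply hab
    change T a0 / T b0 ∈ L
    rw [hc]
    exact c.2
  have hτ := tn_pos hm2
  obtain ⟨w, f, M, t, ht, hbasis, hrM, hMcl, hMD⟩ := pick L r
  let TM : Fin (m + 1) → M := fun l => ⟨r l, hrM l⟩
  have hTM0 : ∀ l, TM l ≠ 0 := fun l h => hr0 l (congrArg Subtype.val h)
  have hTMsum : ∑ l, TM l = 0 := by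
    apply Subtype.ext
    rw [AddSubmonoidClass.coe_finsetSum]
    change ∑ l, T l / T (Fin.last m) = 0
    rw [← Finset.sum_div, hTsum, zero_div]
  have hlin : LinearIndependent L (fun l => TM ((Fin.last m).succAbove l)) := by
    have h1 : LinearIndependent L (fun l => T ((Fin.last m).succAbove l)) := hlinC
    have h2 : LinearIndependent L (fun l => r ((Fin.last m).succAbove l)) := by
      let φ : K →ₗ[L] K := LinearMap.mulRight L (T (Fin.last m))⁻¹
      have h3 := h1.map' φ (by
        rw [LinearMap.ker_eq_bot]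
        intro x y hxy
        exact mul_right_cancel₀ (inv_ne_zero (hT (Fin.last m))) hxy)
      have h4 : (fun l => r ((Fin.last m).succAbove l)) =
          φ ∘ (fun l => T ((Fin.last m).succAbove l)) := by
        funext l
        simp only [r, φ, Function.comp_apply, LinearMap.mulRight_apply]
        rw [div_eq_mul_inv]
      rw [h4]
      exact h3
    have h3 : (fun l => r ((Fin.last m).succAbove l)) =
        M.val.toLinearMap ∘ (fun l => TM ((Fin.last m).succAbove l)) := rfl
    rw [h3] at h2
    exact h2.of_comp _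
  have hcard : m + 1 ≤ s := by
    have := Fintype.card_le_of_injective _ hem
    rw [Fintype.card_fin] at this
    exact this.trans hT0.card
  have hNe : (m + 1) * tn m + d ≤ N := by
    refine le_trans ?_ hN
    exact Nat.add_le_add_right (Nat.mul_le_mul hcard (tn_mono (by omega))) d
  have hq : bw m (tn m) d ≤ tn m * N := by
    unfold bw
    rw [mul_comm]
    refine Nat.mul_le_mul_left _ ?_
    rw [mul_comm (tn m)]
    exact hNe
  have hW : 0 < bw m (tn m) d := by
    unfold bw
    have : 0 < tn m * (m + 1) := Nat.mul_pos hτ (Nat.succ_pos m)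
    exact Nat.mul_pos (by omega) hτ
  have hcl : ∀ x : M, IsAlgebraic L x → ∃ c : L, x = algebraMap L M c := by
    intro x hx
    have h1 : IsAlgebraic L (x : K) := hx.algebraMap (A := K)
    exact ⟨⟨(x : K), hL _ h1⟩, rfl⟩
  have htT : ∀ i, ∃ a b, t i = TM a / TM b := by
    intro i
    refine ⟨f i, Fin.last m, ?_⟩
    apply Subtype.ext
    change (t i : K) = r (f i) / r (Fin.last m)
    rw [ht]
    simp only [r]
    rw [div_self (hT _), div_one]
  obtain ⟨gM, hgM0, hgMr, hgood⟩ := block (k := k) (L := L) (M := M) (K := K) hcl TM hTM0 hTMsum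
    hlin t htT hbasis (tn m) d N hq hW
  have hgd : ∀ c, Good Bd L (fun i => (t i : K)) (bw m (tn m) d) (gM c : K) := by
    intro c P D hD hcase
    refine hgood P D (fun i x => hD i x x.2) ?_ c
    rcases hcase with h | ⟨hb, h⟩
    · exact Or.inl h
    · refine Or.inr ⟨h, fun hPL j l => ?_⟩
      change P.ord (r j) = P.ord (r l) ∨ (N : ℤ) ≤ |P.ord (r j) - P.ord (r l)|
      have hPL' : Triv L P := fun x hx hx0 => hPL ⟨x, hx⟩ fun h => hx0 (congrArg Subtype.val h)
      have h1 : ∀ j, P.ord (r j) = P.ord (T0 (em j)) - P.ord (T (Fin.last m)) := by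
        intro j
        simp only [r]
        rw [P.ord_div (hT j) (hT _)]
        have h2 : T j = (c0 j : K) * T0 (em j) := rfl
        have hcj : (c0 j : K) ≠ 0 := fun h => hc0 j (Subtype.ext h)
        rw [h2, P.ord_mul hcj (hT0.ne _), hPL' _ (c0 j).2 hcj, zero_add]
      rw [h1, h1]
      rcases hT0.jump P hb hPL' (em j) (em l) with h2 | h2
      · left; rw [h2]
      · right
        rw [sub_sub_sub_cancel_right]
        exact h2
  refine ⟨M, w, m, t, (gM (Fin.last m) : K), ?_, hm2, hcard, ?_, hbasis, hgd _, ?_, hMcl, ?_⟩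
  · rw [Nat.pos_iff_ne_zero]
    rintro rfl
    have halg : Algebra.IsAlgebraic L M := hbasis.isEmpty_iff_isAlgebraic.1 inferInstance
    have hmem : ∀ l, r l ∈ L := by
      intro l
      apply hL
      exact (halg.isAlgebraic (TM l)).algebraMap (A := K)
    apply hab
    change T a0 / T b0 ∈ L
    rw [← hrab]
    exact div_mem (hmem _) (hmem _)
  · intro h
    exact hgM0 _ (Subtype.ext h)
  · intro i
    have h1 := hgd (f i)
    have h2 : (gM (f i) : K) = (gM (Fin.last m) : K) * (t i : K) ^ d := by
      have h3 := congrArg (Subtype.val) (hgMr (f i) (Fin.last m))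
      change (gM (f i) : K) * r (Fin.last m) ^ d = (gM (Fin.last m) : K) * r (f i) ^ d at h3
      have h4 : r (Fin.last m) = 1 := div_self (hT _)
      rw [h4, one_pow, mul_one] at h3
      rw [h3, ht]
    rwa [h2] at h1
  · intro D hDL hDt
    exact hMD D hDL fun i => by rw [← ht]; exact hDt i

end Pool.Agent.T9h4.NT
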