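import Pool.Agent.T9h4.NT.Step

/-!
The tower of fields for a collection of vanishing sums which depends on the field; the weight of the
forms depends only on the number of terms of the sums.
-/

set_option autoImplicit false

open FF Pool.Agent.W603.LV Pool.Agent.W602.GT Pool.Agent.T9h4.TW

namespace Pool.Agent.T9h4.NT

variable {k K : Type} [Field k] [Field K] [Algebra k K]

/-- the ratios of the circuits of all these sums lie in `L` -/
def Term (Bd : Place k K → Prop) (d S : ℕ) (L : IntermediateField k K) : Prop :=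
  ∀ (s N : ℕ), s ≤ S → s * tn (s - 1) + d ≤ N → ∀ (J : Type) [Fintype J] (T : J → K),
    VS Bd L s N T →
    ∀ (C : CD L T) (a b : Fin (C.m + 1)), (C.c a • T (C.e a)) / (C.c b • T (C.e b)) ∈ L

/-- good relative forms of weight `W` over `L` -/
def FormsW (Bd : Place k K → Prop) (L : IntermediateField k K) (d W : ℕ) : Prop :=
  ∃ (ι : Type) (_ : Fintype ι) (_ : DecidableEq ι) (t : ι → K) (g : K),
    g ≠ 0 ∧ IsTranscendenceBasis L t ∧ Good Bd L t W g ∧ ∀ i, Good Bd L t W (g * t i ^ d)

theorem forms_trivial {Bd : Place k K → Prop} {L : IntermediateField k K} (d W : ℕ)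
    (hL : Algebra.IsAlgebraic L K) : FormsW Bd L d W := by
  obtain ⟨s, hs⟩ := exists_isTranscendenceBasis L K
  have hemp : IsEmpty s := hs.isEmpty_iff_isAlgebraic.2 hL
  have hfin : Fintype s := Fintype.ofIsEmpty
  refine ⟨s, hfin, inferInstance, _, 1, one_ne_zero, hs, ?_, fun i => ?_⟩
  · intro P D _ _
    rw [Matrix.det_isEmpty, one_pow, mul_one]
    exact P.reg_one
  · exact (hemp.false i).elim

theorem forms_comp {Bd : Place k K → Prop} {L : IntermediateField k K} {M : IntermediateField L K}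
    {d w V W : ℕ} {t : Fin w → M} {g : K} (hW : 0 < W) (hVW : V ∣ W) (hg : g ≠ 0)
    (ht : IsTranscendenceBasis L t)
    (h1 : Good Bd L (fun i => (t i : K)) V g)
    (h2 : ∀ i, Good Bd L (fun i => (t i : K)) V (g * (t i : K) ^ d))
    (hM : ∀ D : Derivation k K K, (∀ x ∈ L, D x = 0) → (∀ i, D (t i : K) = 0) →
      ∀ x ∈ M, D x = 0)
    (hF : FormsW Bd (M.restrictScalars k) d W) : FormsW Bd L d W := by
  classical
  obtain ⟨r, rfl⟩ := hVW
  obtain ⟨ι, i1, i2, t2, g2, hg2, ht2, h3, h4⟩ := hF
  obtain ⟨v, rfl⟩ : ∃ v, r = v + 1 := ⟨r - 1, by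
    have : 0 < r := Nat.pos_of_mul_pos_left hW
    omega⟩
  have h1' : Good Bd L (fun i => (t i : K)) (V * (v + 1)) (g ^ (v + 1)) := h1.pow (v + 1)
  refine ⟨Fin w ⊕ ι, inferInstance, inferInstance, Sum.elim (fun i => (t i : K)) t2,
    g ^ (v + 1) * g2, mul_ne_zero (pow_ne_zero _ hg) hg2, ?_,
    Good.comp hW hM h1' h3, ?_⟩
  · have h5 : IsTranscendenceBasis L (Sum.elim t2 (algebraMap M K ∘ t)) :=
      ht.sumElim_comp (S := M) ht2
    have h6 := h5.comp_equiv (Equiv.sumComm (Fin w) ι)
    have h7 : Sum.elim t2 (algebraMap M K ∘ t) ∘ (Equiv.sumComm (Fin w) ι) =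
        Sum.elim (fun i => (t i : K)) t2 := by
      funext i
      rcases i with i | i <;> rfl
    rwa [h7] at h6
  · intro i
    rcases i with i | i
    · have h5 : Good Bd L (fun i => (t i : K)) (V * (v + 1)) (g ^ (v + 1) * (t i : K) ^ d) := by
        have h6 := (h1.pow v).mul (h2 i)
        have e : g ^ v * (g * (t i : K) ^ d) = g ^ (v + 1) * (t i : K) ^ d := by ring
        rwa [e, ← Nat.mul_succ] at h6
      have h6 := Good.comp hW hM h5 h3
      have e : g ^ (v + 1) * (t i : K) ^ d * g2 =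
          g ^ (v + 1) * g2 * Sum.elim (fun i => (t i : K)) t2 (Sum.inl i) ^ d := by
        rw [Sum.elim_inl]
        ring
      rwa [e] at h6
    · have h6 := Good.comp hW hM h1' (h4 i)
      have e : g ^ (v + 1) * (g2 * t2 i ^ d) =
          g ^ (v + 1) * g2 * Sum.elim (fun i => (t i : K)) t2 (Sum.inr i) ^ d := by
        rw [Sum.elim_inr]
        ring
      rwa [e] at h6

/-- **The tower.** -/
theorem tower [IsAlgClosed k] [CharZero k] (Bd : Place k K → Prop) (d S : ℕ) {W : ℕ} (hW : 0 < W)
    (hS : ∀ m, 2 ≤ m → m + 1 ≤ S → bw m (tn m) d ∣ W) :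
    ∀ (r : ℕ) (L : IntermediateField k K), (∀ x : K, IsAlgebraic L x → x ∈ L) →
      Algebra.trdeg L K = r → FormsW Bd L d W ∨ ∃ M : IntermediateField k K,
        (∀ x : K, IsAlgebraic M x → x ∈ M) ∧ ¬ Algebra.IsAlgebraic M K ∧ Term Bd d S M := by
  intro r
  induction r using Nat.strong_induction_on with
  | _ r ih =>
    intro L hL hr
    by_cases hC : Term Bd d S L
    · by_cases halg : Algebra.IsAlgebraic L K
      · exact Or.inl (forms_trivial d W halg)
      · exact Or.inr ⟨L, hL, halg, hC⟩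
    · unfold Term at hC
      push Not at hC
      obtain ⟨s, N, hsS, hN, J, hJ, T, hT, C, a0, b0, hab⟩ := hC
      obtain ⟨M, w, m, t, g', hw, hm, hms, hg', ht, h1, h2, hM, hMD⟩ := step hT d hN hL C a0 b0 hab
      have h3 := trdeg_add_eq L M (A := K)
      have h4 : Algebra.trdeg L M = w := by
        have := ht.cardinalMk_eq_trdeg
        rw [Cardinal.mk_fin] at this
        exact this.symm
      rw [h4, hr] at h3
      obtain ⟨r', hr'⟩ : ∃ r' : ℕ, Algebra.trdeg M K = r' := by
        have h5 : Algebra.trdeg M K ≤ (r : Cardinal) := by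
          rw [← h3]
          exact self_le_add_left _ _
        exact Cardinal.lt_aleph0.1 (h5.trans_lt Cardinal.natCast_lt_aleph0)
      rw [hr'] at h3
      have h5 : w + r' = r := by exact_mod_cast h3
      rcases ih r' (by omega) (M.restrictScalars k) hM hr' with h6 | h6
      · exact Or.inl (forms_comp hW (hS m hm (hms.trans hsS)) hg' ht h1 h2 hMD h6)
      · exact Or.inr h6

/-- the classes of a vanishing sum -/
theorem classes {Bd : Place k K → Prop} {d S : ℕ} {L : IntermediateField k K}
    (hL : Term Bd d S L)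
    {s N : ℕ} (hs : s ≤ S) (hN : s * tn (s - 1) + d ≤ N) {J : Type} [Fintype J] (T : J → K)
    (hT : VS Bd L s N T) :
    ∃ R : J → J → Prop, Equivalence R ∧ (∀ i j, R i j → T i / T j ∈ L) ∧
      ∀ (j0 : J) (A : Finset J), (∀ j, j ∈ A ↔ R j0 j) → ∑ j ∈ A, T j = 0 := by
  classical
  let R0 : J → J → Prop := fun i j => ∃ (C : CD L T) (a b : Fin (C.m + 1)),
    C.e a = i ∧ C.e b = j
  have hR0 : ∀ i j, R0 i j → T i / T j ∈ L := by
    rintro _ _ ⟨C, a, b, rfl, rfl⟩
    have h1 := hL s N hs hN J T hT C a b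
    have hca : (C.c a : K) ≠ 0 := fun h => C.hc a (Subtype.ext h)
    have hcb : (C.c b : K) ≠ 0 := fun h => C.hc b (Subtype.ext h)
    have hs : ∀ (c : L) (x : K), c • x = (c : K) * x := fun c x => rfl
    rw [hs, hs] at h1
    have h2 : T (C.e a) / T (C.e b) = ((C.c a : K) * T (C.e a) / ((C.c b : K) * T (C.e b))) *
        (C.c b : K) * (C.c a : K)⁻¹ := by
      have := hT.ne (C.e b)
      field_simp
    rw [h2]
    exact mul_mem (mul_mem h1 (C.c b).2) (inv_mem (C.c a).2)
  refine ⟨Relation.EqvGen R0, Relation.EqvGen.is_equivalence R0, ?_, ?_⟩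
  · intro i j hij
    induction hij with
    | rel i j h => exact hR0 i j h
    | refl i =>
      rw [div_self (hT.ne i)]
      exact one_mem _
    | symm i j _ ih =>
      rw [← inv_div]
      exact inv_mem ih
    | trans i j l _ _ ih1 ih2 =>
      have h1 : T i / T l = (T i / T j) * (T j / T l) := by
        have := hT.ne j
        field_simp
      rw [h1]
      exact mul_mem ih1 ih2
  · intro j0 A hA
    have key := class_sum (k := L) T (Relation.EqvGen R0) (Relation.EqvGen.is_equivalence R0)
      (by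
        intro m em hem c hc hrel hlin i j
        exact Relation.EqvGen.rel _ _ ⟨⟨m, em, hem, c, hc, hrel, hlin⟩, i, j, rfl, rfl⟩)
      (Fintype.card J) (fun _ => 1) (Finset.card_le_univ _)
      (by simpa using hT.sum) j0
    simp only [one_smul] at key
    rw [← key]
    exact Finset.sum_congr (by ext j; simp [hA]) (fun _ _ => rfl)

end Pool.Agent.T9h4.NT
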